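import Pool.Agent.Y782.UG.Stm

/-!
# Finite clusters are exponentially small
-/

set_option autoImplicit false

open MeasureTheory ProbabilityTheory Filter Topology
open scoped ENNReal BigOperators

namespace Pool.Agent.Y785.UG

open Pool.Agent.Y782.UG

namespace UAux

variable {Δ : ℕ}

theorem nch_le (t : Tr Δ) : nch t ≤ Δ := Nat.lt_succ_iff.1 (t []).isLt

theorem meas_nch : Measurable (nch : Tr Δ → ℕ) :=
  (measurable_of_countable (fun k : Fin (Δ + 1) => (k : ℕ))).comp (measurable_pi_apply [])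

theorem meas_sub (i : ℕ) : Measurable (fun t : Tr Δ => sub t i) :=
  measurable_pi_lambda _ fun _ => measurable_pi_apply _

theorem meas_mk : Measurable (fun x : Fin (Δ + 1) × (ℕ → Tr Δ) => mk x.1 x.2) := by
  refine measurable_pi_lambda _ fun w => ?_
  cases w with
  | nil => exact measurable_fst
  | cons a w => exact (measurable_pi_apply w).comp ((measurable_pi_apply a).comp measurable_snd)

theorem lint_Q (h : S_DEC) (ph : Measure (Fin (Δ + 1))) [IsProbabilityMeasure ph]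
    {f : Tr Δ → ℝ≥0∞} (hf : Measurable f) :
    ∫⁻ t, f t ∂(Q ph) =
      ∫⁻ k, ∫⁻ c, f (mk k c) ∂(Measure.infinitePi (fun _ : ℕ => Q ph)) ∂ph := by
  have e : Q ph = Q0 ph ph := (h Δ ph ph).2.symm
  calc ∫⁻ t, f t ∂(Q ph) = ∫⁻ t, f t ∂(Q0 ph ph) := by rw [← e]
    _ = ∫⁻ x, f (mk x.1 x.2) ∂(ph.prod (Measure.infinitePi (fun _ : ℕ => Q ph))) := by
        unfold Q0
        rw [lintegral_map hf meas_mk]
    _ = _ := by
        rw [lintegral_prod (fun x : Fin (Δ + 1) × (ℕ → Tr Δ) => f (mk x.1 x.2))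
          (hf.comp meas_mk).aemeasurable]

theorem lint_eval (ph : Measure (Fin (Δ + 1))) [IsProbabilityMeasure ph]
    {f : Tr Δ → ℝ≥0∞} (hf : Measurable f) (i : ℕ) :
    ∫⁻ c, f (c i) ∂(Measure.infinitePi (fun _ : ℕ => Q ph)) = ∫⁻ t, f t ∂(Q ph) := by
  have h1 := Measure.infinitePi_map_eval (fun _ : ℕ => Q ph) i
  have h2 : ∫⁻ t, f t ∂(Measure.map (fun x : ℕ → Tr Δ => x i)
      (Measure.infinitePi (fun _ : ℕ => Q ph))) =
      ∫⁻ c, f (c i) ∂(Measure.infinitePi (fun _ : ℕ => Q ph)) :=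
    lintegral_map hf (measurable_pi_apply i)
  rw [← h2, h1]

theorem law_sub (h : S_DEC) (ph : Measure (Fin (Δ + 1))) [IsProbabilityMeasure ph]
    (i : ℕ) {A : Set (Tr Δ)} (hA : MeasurableSet A) : Q ph {t | sub t i ∈ A} = Q ph A := by
  have h1 : Measurable (fun t : Tr Δ => A.indicator (fun _ => (1 : ℝ≥0∞)) (sub t i)) :=
    (measurable_const.indicator hA).comp (meas_sub i)
  have h2 := lint_Q h ph h1
  have h3 : ∀ k : Fin (Δ + 1), ∫⁻ c, A.indicator (fun _ => (1 : ℝ≥0∞)) (sub (mk k c) i)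
      ∂(Measure.infinitePi (fun _ : ℕ => Q ph)) = Q ph A := by
    intro k
    have h4 := lint_eval ph (f := A.indicator (fun _ => (1 : ℝ≥0∞)))
      (measurable_const.indicator hA) i
    have h5 : ∀ c : ℕ → Tr Δ, sub (mk k c) i = c i := fun c => rfl
    simp only [h5]
    rw [h4, lintegral_indicator_const hA, one_mul]
  simp only [h3] at h2
  rw [lintegral_const, measure_univ, mul_one] at h2
  rw [← h2]
  have h6 : (fun t : Tr Δ => A.indicator (fun _ => (1 : ℝ≥0∞)) (sub t i)) =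
      {t : Tr Δ | sub t i ∈ A}.indicator (fun _ => (1 : ℝ≥0∞)) := by
    funext t
    by_cases ht : sub t i ∈ A
    · rw [Set.indicator_of_mem ht, Set.indicator_of_mem (show t ∈ {t : Tr Δ | sub t i ∈ A} from ht)]
    · rw [Set.indicator_of_notMem ht,
        Set.indicator_of_notMem (show t ∉ {t : Tr Δ | sub t i ∈ A} from ht)]
  have h7 : MeasurableSet {t : Tr Δ | sub t i ∈ A} := meas_sub i hA
  rw [h6, lintegral_indicator_const h7, one_mul]

open Classical in
/-- the generating function of the clusters -/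
noncomputable def hf (Z : ℝ≥0∞) (r : Tr Δ → ℝ) (F : Set (Tr Δ)) : ℕ → Tr Δ → ℝ≥0∞
  | 0, _ => 0
  | n + 1, u => if ∀ i < nch u, sub u i ∈ F then
      Z * ∏ i ∈ Finset.range (nch u), (if r (sub u i) = 0 then 1 else hf Z r F n (sub u i))
      else 0

open Classical in
theorem meas_hf (Z : ℝ≥0∞) {r : Tr Δ → ℝ} {F : Set (Tr Δ)} (mr : Measurable r)
    (mF : MeasurableSet F) : ∀ n : ℕ, Measurable (hf Z r F n)
  | 0 => measurable_const
  | n + 1 => by
    have ih := meas_hf Z mr mF n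
    have h1 : ∀ k : ℕ, Measurable (fun u : Tr Δ => if ∀ i < k, sub u i ∈ F then
        Z * ∏ i ∈ Finset.range k, (if r (sub u i) = 0 then (1 : ℝ≥0∞) else
          hf Z r F n (sub u i)) else 0) := by
      intro k
      refine Measurable.ite ?_ (measurable_const.mul (Finset.measurable_prod _ fun i _ =>
        Measurable.ite ?_ measurable_const (ih.comp (meas_sub i)))) measurable_const
      · have h2 : {u : Tr Δ | ∀ i < k, sub u i ∈ F} =
            ⋂ i ∈ Finset.range k, (fun u : Tr Δ => sub u i) ⁻¹' F := by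
          ext u
          simp
        rw [h2]
        exact Finset.measurableSet_biInter _ fun i _ => meas_sub i mF
      · exact (mr.comp (meas_sub i)) (measurableSet_singleton 0)
    have h2 : Measurable (fun p : ℕ × Tr Δ => if ∀ i < p.1, sub p.2 i ∈ F then
        Z * ∏ i ∈ Finset.range p.1, (if r (sub p.2 i) = 0 then (1 : ℝ≥0∞) else
          hf Z r F n (sub p.2 i)) else 0) := measurable_from_prod_countable_right h1
    exact h2.comp (meas_nch.prodMk measurable_id)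

open Classical in
theorem claimA (h : S_DEC) (ph : Measure (Fin (Δ + 1))) [IsProbabilityMeasure ph] (Z : ℝ≥0∞)
    {r : Tr Δ → ℝ} {F : Set (Tr Δ)} (mr : Measurable r) (mF : MeasurableSet F) (n : ℕ) :
    ∫⁻ u, hf Z r F (n + 1) u ∂(Q ph) ≤
      Z * ∫⁻ k : Fin (Δ + 1), (Q ph {u | u ∈ F ∧ r u = 0} +
        ∫⁻ u, hf Z r F n u ∂(Q ph)) ^ (k : ℕ) ∂ph := by
  obtain ⟨g, hg⟩ : ∃ g : Tr Δ → ℝ≥0∞, g = fun v => if v ∈ F then
      (if r v = 0 then 1 else hf Z r F n v) else 0 := ⟨_, rfl⟩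
  have mg : Measurable g := by
    rw [hg]
    exact Measurable.ite mF (Measurable.ite (mr (measurableSet_singleton 0)) measurable_const
      (meas_hf Z mr mF n)) measurable_const
  have mz : MeasurableSet {u : Tr Δ | u ∈ F ∧ r u = 0} :=
    mF.inter (mr (measurableSet_singleton 0))
  have hgle : ∫⁻ v, g v ∂(Q ph) ≤ Q ph {u | u ∈ F ∧ r u = 0} + ∫⁻ u, hf Z r F n u ∂(Q ph) := by
    have h1 : ∀ v, g v ≤ {u : Tr Δ | u ∈ F ∧ r u = 0}.indicator (fun _ => (1 : ℝ≥0∞)) v +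
        hf Z r F n v := by
      intro v
      rw [hg]
      simp only
      split_ifs with a b
      · rw [Set.indicator_of_mem (show v ∈ {u : Tr Δ | u ∈ F ∧ r u = 0} from ⟨a, b⟩)]
        exact le_self_add
      · exact le_add_self
      · exact zero_le
    refine (lintegral_mono h1).trans ?_
    rw [lintegral_add_left (measurable_const.indicator mz), lintegral_indicator_const mz,
      one_mul]
  rw [lint_Q h ph (meas_hf Z mr mF (n + 1)), ← lintegral_const_mul _ (measurable_of_countable _)]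
  refine lintegral_mono fun k => ?_
  have h2 : ∀ c : ℕ → Tr Δ, hf Z r F (n + 1) (mk k c) ≤
      Z * ∏ i ∈ Finset.range (k : ℕ), g (c i) := by
    intro c
    change (if ∀ i < (k : ℕ), c i ∈ F then
      Z * ∏ i ∈ Finset.range (k : ℕ), (if r (c i) = 0 then 1 else hf Z r F n (c i)) else 0) ≤ _
    split_ifs with a
    · refine le_of_eq ?_
      congr 1
      refine Finset.prod_congr rfl fun i hi => ?_
      rw [hg]
      simp only
      rw [if_pos (a i (Finset.mem_range.1 hi))]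
    · exact zero_le
  refine (lintegral_mono h2).trans ?_
  have h5 : Measurable (fun c : ℕ → Tr Δ => ∏ i ∈ Finset.range (k : ℕ), g (c i)) :=
    Finset.measurable_prod _ fun i _ => mg.comp (measurable_pi_apply i)
  rw [lintegral_const_mul _ h5]
  refine mul_le_mul' le_rfl ?_
  have h3 : iIndepFun (fun (i : ℕ) (c : ℕ → Tr Δ) => g (c i))
      (Measure.infinitePi (fun _ : ℕ => Q ph)) :=
    iIndepFun_infinitePi (X := fun _ => g) (fun _ => mg)
  rw [lintegral_prod_eq_prod_lintegral_of_indepFun (Finset.range (k : ℕ))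
    (fun (i : ℕ) (c : ℕ → Tr Δ) => g (c i)) h3 (fun i => mg.comp (measurable_pi_apply i))]
  have h4 : ∀ i : ℕ, ∫⁻ c, g (c i) ∂(Measure.infinitePi (fun _ : ℕ => Q ph)) =
      ∫⁻ v, g v ∂(Q ph) := fun i => lint_eval ph mg i
  simp only [h4]
  rw [Finset.prod_const, Finset.card_range]
  exact pow_le_pow_left' hgle _

theorem size_le (r : Tr Δ → ℝ) (u : Tr Δ) : size r u ≤
    1 + ∑ i ∈ Finset.range (nch u), (if r (sub u i) ≠ 0 then size r (sub u i) else 0) := by
  unfold size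
  refine iSup_le fun n => ?_
  cases n with
  | zero => exact zero_le
  | succ n =>
    refine add_le_add le_rfl (Finset.sum_le_sum fun i _ => ?_)
    split_ifs
    · exact le_iSup (fun n => sz r n (sub u i)) n
    · exact le_rfl

theorem one_le_size (r : Tr Δ → ℝ) (u : Tr Δ) : 1 ≤ size r u := by
  refine le_trans ?_ (le_iSup (fun n => sz r n u) 1)
  exact le_self_add

theorem child_size (r : Tr Δ → ℝ) (u : Tr Δ) {i : ℕ} (hi : i < nch u)
    (hr : r (sub u i) ≠ 0) {N : ℕ} (h : size r u ≤ ((N + 1 : ℕ) : ℕ∞)) :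
    size r (sub u i) ≤ (N : ℕ∞) := by
  refine iSup_le fun n => ?_
  have h1 : sz r (n + 1) u ≤ ((N + 1 : ℕ) : ℕ∞) := (le_iSup (fun n => sz r n u) (n + 1)).trans h
  have h2 : 1 + sz r n (sub u i) ≤ sz r (n + 1) u := by
    change _ ≤ 1 + ∑ i ∈ Finset.range (nch u), (if r (sub u i) ≠ 0 then sz r n (sub u i) else 0)
    refine add_le_add le_rfl ?_
    have h3 := Finset.single_le_sum (f := fun i => if r (sub u i) ≠ 0 then sz r n (sub u i) else 0)
      (fun j _ => zero_le) (Finset.mem_range.2 hi)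
    simp only [if_pos hr] at h3
    exact h3
  have h4 : 1 + sz r n (sub u i) ≤ 1 + (N : ℕ∞) := by
    refine (h2.trans h1).trans (le_of_eq ?_)
    push_cast
    rw [add_comm]
  exact (ENat.add_le_add_iff_left (by simp)).1 h4

theorem claimC {Z : ℝ≥0∞} (hZ : 1 ≤ Z) {r : Tr Δ → ℝ} {F : Set (Tr Δ)}
    (hii : ∀ u, r u ≠ 0 → ∀ i < nch u, sub u i ∈ F) : ∀ (N : ℕ) (u : Tr Δ),
    (∀ i < nch u, sub u i ∈ F) → size r u ≤ (N : ℕ∞) → ∀ K : ℕ, (K : ℕ∞) ≤ size r u →
      Z ^ K ≤ hf Z r F N u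
  | 0, u, _, h, _, _ => by
    exact absurd (le_trans (one_le_size r u) h) (by simp)
  | N + 1, u, hu, h, K, hK => by
    have ih := claimC hZ hii N
    obtain ⟨a, ha⟩ : ∃ a : ℕ → ℕ, a = fun i => if r (sub u i) ≠ 0 then
      (size r (sub u i)).toNat else 0 := ⟨_, rfl⟩
    have h1 : ∀ i < nch u, r (sub u i) ≠ 0 → ((a i : ℕ) : ℕ∞) = size r (sub u i) := by
      intro i hi hr
      have h2 := child_size r u hi hr h
      rw [ha]
      simp only [if_pos hr]
      exact ENat.natCast_toNat (ne_top_of_le_ne_top (ENat.natCast_ne_top N) h2)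
    have h3 : K ≤ 1 + ∑ i ∈ Finset.range (nch u), a i := by
      have h4 := hK.trans (size_le r u)
      have h5 : (1 : ℕ∞) + ∑ i ∈ Finset.range (nch u),
          (if r (sub u i) ≠ 0 then size r (sub u i) else 0) =
          ((1 + ∑ i ∈ Finset.range (nch u), a i : ℕ) : ℕ∞) := by
        push_cast
        congr 1
        refine Finset.sum_congr rfl fun i hi => ?_
        by_cases hr : r (sub u i) ≠ 0
        · rw [if_pos hr, h1 i (Finset.mem_range.1 hi) hr]
        · rw [if_neg hr, ha]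
          simp only [if_neg hr]
          rfl
      rw [h5] at h4
      exact_mod_cast h4
    have h6 : hf Z r F (N + 1) u = Z * ∏ i ∈ Finset.range (nch u),
        (if r (sub u i) = 0 then 1 else hf Z r F N (sub u i)) := by
      rw [hf, if_pos hu]
    rw [h6]
    calc Z ^ K ≤ Z ^ (1 + ∑ i ∈ Finset.range (nch u), a i) := pow_le_pow_right₀ hZ h3
      _ = Z * ∏ i ∈ Finset.range (nch u), Z ^ a i := by
          rw [pow_add, pow_one, Finset.prod_pow_eq_pow_sum]
      _ ≤ _ := by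
          refine mul_le_mul' le_rfl (Finset.prod_le_prod' fun i hi => ?_)
          by_cases hr : r (sub u i) = 0
          · rw [if_pos hr, ha]
            simp [hr]
          · rw [if_neg hr]
            have h7 := h1 i (Finset.mem_range.1 hi) hr
            exact ih (sub u i) (hii _ hr) (child_size r u (Finset.mem_range.1 hi) hr h) (a i)
              (le_of_eq h7)

/-- the estimate of the recursion -/
theorem claimB (ph : Measure (Fin (Δ + 1))) [IsProbabilityMeasure ph]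
    (h0 : ph {k | (k : ℕ) < 1} = 0) {q S : ℝ} (hq : ph {k | (k : ℕ) = 1} = ENNReal.ofReal q)
    (hq0 : 0 ≤ q) (hS0 : 0 ≤ S) (hS1 : S ≤ 1) {s : ℝ≥0∞} (hs : s ≤ ENNReal.ofReal S) :
    ∫⁻ k : Fin (Δ + 1), s ^ (k : ℕ) ∂ph ≤ ENNReal.ofReal (q * S + S ^ 2) := by
  have h1 : ∀ᵐ k ∂ph, s ^ ((k : Fin (Δ + 1)) : ℕ) ≤
      {k : Fin (Δ + 1) | (k : ℕ) = 1}.indicator (fun _ => ENNReal.ofReal S) k +
        ENNReal.ofReal (S ^ 2) := by
    have h2 : ∀ᵐ k ∂ph, ¬ ((k : Fin (Δ + 1)) : ℕ) < 1 := by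
      rw [ae_iff]
      simpa using h0
    filter_upwards [h2] with k hk
    have h3 : s ^ (k : ℕ) ≤ ENNReal.ofReal (S ^ (k : ℕ)) := by
      rw [ENNReal.ofReal_pow hS0]
      exact pow_le_pow_left' hs _
    by_cases hk1 : (k : ℕ) = 1
    · rw [Set.indicator_of_mem (show k ∈ {k : Fin (Δ + 1) | (k : ℕ) = 1} from hk1)]
      refine h3.trans ?_
      rw [hk1, pow_one]
      exact le_self_add
    · refine h3.trans (le_trans ?_ le_add_self)
      apply ENNReal.ofReal_le_ofReal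
      exact pow_le_pow_of_le_one hS0 hS1 (by omega)
  refine (lintegral_mono_ae h1).trans ?_
  rw [lintegral_add_right _ measurable_const, lintegral_indicator_const MeasurableSet.of_discrete,
    lintegral_const, measure_univ, mul_one, hq, ENNReal.ofReal_add (by positivity)
    (by positivity), ENNReal.ofReal_mul hq0]
  rw [mul_comm]

end UAux

open UAux in
theorem u (h : S_DEC) : S_U := by
  intro Δ ph hprob h0 hne
  obtain ⟨q, hqd⟩ : ∃ q : ℝ, q = (ph {k : Fin (Δ + 1) | (k : ℕ) = 1}).toReal := ⟨_, rfl⟩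
  have hq0 : 0 ≤ q := by
    rw [hqd]
    exact ENNReal.toReal_nonneg
  have hq : ph {k : Fin (Δ + 1) | (k : ℕ) = 1} = ENNReal.ofReal q := by
    rw [hqd, ENNReal.ofReal_toReal (measure_ne_top _ _)]
  have hq1 : q < 1 := by
    have h1 : {k : Fin (Δ + 1) | (k : ℕ) = 1}ᶜ = {k : Fin (Δ + 1) | (k : ℕ) ≠ 1} := rfl
    have h2 : ph {k : Fin (Δ + 1) | (k : ℕ) = 1} + ph {k : Fin (Δ + 1) | (k : ℕ) ≠ 1} = 1 := by
      rw [← h1, measure_add_measure_compl MeasurableSet.of_discrete, measure_univ]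
    by_contra hcon
    push Not at hcon
    have h3 : (1 : ℝ≥0∞) ≤ ph {k : Fin (Δ + 1) | (k : ℕ) = 1} := by
      rw [hq, ← ENNReal.ofReal_one]
      exact ENNReal.ofReal_le_ofReal hcon
    have h4 : ph {k : Fin (Δ + 1) | (k : ℕ) ≠ 1} ≤ 0 := by
      have h5 : 1 + ph {k : Fin (Δ + 1) | (k : ℕ) ≠ 1} ≤ 1 + 0 := by
        rw [add_zero]
        calc 1 + ph {k : Fin (Δ + 1) | (k : ℕ) ≠ 1} ≤
            ph {k : Fin (Δ + 1) | (k : ℕ) = 1} + ph {k : Fin (Δ + 1) | (k : ℕ) ≠ 1} :=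
              add_le_add h3 le_rfl
          _ = 1 := h2
      exact (ENNReal.add_le_add_iff_left ENNReal.one_ne_top).1 h5
    exact hne (le_antisymm h4 zero_le)
  have hq1' : 0 < 1 - q := by linarith
  obtain ⟨ζ, hζ⟩ : ∃ ζ : ℝ, ζ = 2 / (1 + q) := ⟨_, rfl⟩
  obtain ⟨ρ, hρ⟩ : ∃ ρ : ℝ, ρ = 2 * q / (1 + q) := ⟨_, rfl⟩
  obtain ⟨θ1, hθ1⟩ : ∃ θ1 : ℝ, θ1 = (1 + q) / (1 - q) := ⟨_, rfl⟩
  have hζ1 : 1 < ζ := by
    rw [hζ, lt_div_iff₀ (by linarith)]
    linarith
  have hζ0 : 0 < ζ := by linarith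
  have hζq : ζ * q = ρ := by
    rw [hζ, hρ]
    ring
  have hρ1 : 0 < 1 - ρ := by
    have h1 : 1 - ρ = (1 - q) / (1 + q) := by
      rw [hρ]
      field_simp
      ring
    rw [h1]
    positivity
  have hθρ : ρ * θ1 + 1 = θ1 := by
    rw [hρ, hθ1]
    field_simp
    ring
  have hθ0 : 0 < θ1 := by
    rw [hθ1]
    positivity
  obtain ⟨y0, hy0⟩ : ∃ y0 : ℝ, y0 = min (1 / (1 + θ1)) ((1 - ρ) / (ζ * (1 + θ1) ^ 2)) := ⟨_, rfl⟩
  have hy00 : 0 < y0 := by
    rw [hy0]
    positivity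
  have hy1 : (1 + θ1) * y0 ≤ 1 := by
    have h1 : y0 ≤ 1 / (1 + θ1) := by
      rw [hy0]
      exact min_le_left _ _
    rw [le_div_iff₀ (by positivity)] at h1
    linarith
  have hy2 : ζ * (1 + θ1) ^ 2 * y0 ≤ 1 - ρ := by
    have h1 : y0 ≤ (1 - ρ) / (ζ * (1 + θ1) ^ 2) := by
      rw [hy0]
      exact min_le_right _ _
    rw [le_div_iff₀ (by positivity)] at h1
    linarith
  refine ⟨ζ, θ1 * (Δ + 1), y0 / (Δ + 1), hζ1, by positivity, by positivity, ?_⟩
  intro lam m r D F hT hx K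
  -- (i)
  have hi : ∀ u ∈ F, r u = 0 → ∃ i < nch u, 0 < m (sub u i) := by
    intro u hu hr
    by_contra hcon
    push Not at hcon
    have h1 : ∀ i < nch u, m (sub u i) = 0 := fun i hi => le_antisymm (hcon i hi) (hT.m0 _)
    by_cases h2 : ∀ i < nch u, sub u i ∈ F
    · by_cases h3 : lam + ∑ i ∈ Finset.range (nch u), r (sub u i) = 0
      · have h4 := hT.ra u h2 h3
        have h5 : 0 ≤ ∑ i ∈ Finset.range (nch u), D (sub u i) :=
          Finset.sum_nonneg fun i hi => (hT.FD _ (h2 i (Finset.mem_range.1 hi))).le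
        have h6 : 0 < m u := by
          rw [h4]
          positivity
        have h7 := hT.Fm u hu
        linarith
      · have h4 := (hT.rb u h2 h3).2.1
        rw [hr] at h4
        have h5 : -1 / (lam + ∑ i ∈ Finset.range (nch u), r (sub u i)) ≠ 0 :=
          div_ne_zero (by norm_num) h3
        exact h5 h4.symm
    · push Not at h2
      exact (hT.rd u h1 h2).1 hu
  -- (ii)
  have hii : ∀ u, r u ≠ 0 → ∀ i < nch u, sub u i ∈ F := by
    intro u hr
    by_contra hcon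
    push Not at hcon
    have hu : u ∈ F := by
      by_contra h1
      exact hr (hT.Fr u h1)
    by_cases h1 : ∃ i < nch u, 0 < m (sub u i)
    · exact hr (hT.rc u h1).2.1
    · push Not at h1
      exact (hT.rd u (fun i hi => le_antisymm (h1 i hi) (hT.m0 _)) hcon).1 hu
  have hiii : ∀ u, 0 < m u → ∀ i < nch u, sub u i ∈ F := by
    intro u hm
    by_contra hcon
    push Not at hcon
    have hu : u ∉ F := fun h1 => by
      have := hT.Fm u h1
      linarith
    by_cases h1 : ∃ i < nch u, 0 < m (sub u i)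
    · exact hu (hT.rc u h1).1
    · push Not at h1
      have := (hT.rd u (fun i hi => le_antisymm (h1 i hi) (hT.m0 _)) hcon).2
      linarith
  -- the bound for `y`
  obtain ⟨x, hxd⟩ : ∃ x : ℝ≥0∞, x = Q ph {u : Tr Δ | 0 < m u} := ⟨_, rfl⟩
  obtain ⟨y, hyd⟩ : ∃ y : ℝ≥0∞, y = Q ph {u : Tr Δ | u ∈ F ∧ r u = 0} := ⟨_, rfl⟩
  have hmm : MeasurableSet {u : Tr Δ | 0 < m u} := measurableSet_lt measurable_const hT.mm
  have hyx : y ≤ (Δ : ℝ≥0∞) * x := by
    have h1 : {u : Tr Δ | u ∈ F ∧ r u = 0} ⊆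
        ⋃ i ∈ Finset.range Δ, {t : Tr Δ | sub t i ∈ {u : Tr Δ | 0 < m u}} := by
      rintro u ⟨hu, hr⟩
      obtain ⟨i, hi1, hi2⟩ := hi u hu hr
      simp only [Set.mem_iUnion, Finset.mem_range]
      exact ⟨i, lt_of_lt_of_le hi1 (nch_le u), hi2⟩
    rw [hyd]
    refine (measure_mono h1).trans ((measure_biUnion_finset_le _ _).trans ?_)
    have h2 : ∀ i : ℕ, Q ph {t : Tr Δ | sub t i ∈ {u : Tr Δ | 0 < m u}} = x := by
      intro i
      rw [hxd]
      exact law_sub h ph i hmm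
    simp only [h2]
    rw [Finset.sum_const, Finset.card_range, nsmul_eq_mul]
  rw [← hxd] at hx ⊢
  have hyy0 : y ≤ ENNReal.ofReal y0 := by
    refine hyx.trans ((mul_le_mul' le_rfl hx).trans ?_)
    have h1 : (Δ : ℝ≥0∞) = ENNReal.ofReal (Δ : ℝ) := by
      rw [ENNReal.ofReal_natCast]
    rw [h1, ← ENNReal.ofReal_mul (Nat.cast_nonneg _)]
    apply ENNReal.ofReal_le_ofReal
    rw [mul_div_assoc']
    rw [div_le_iff₀ (by positivity)]
    nlinarith
  obtain ⟨Y, hY⟩ : ∃ Y : ℝ, Y = y.toReal := ⟨_, rfl⟩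
  have hYy : y = ENNReal.ofReal Y := by
    rw [hY, ENNReal.ofReal_toReal (ne_top_of_le_ne_top ENNReal.ofReal_ne_top hyy0)]
  have hY0 : 0 ≤ Y := by
    rw [hY]
    exact ENNReal.toReal_nonneg
  have hYy0 : Y ≤ y0 := by
    rw [hYy] at hyy0
    exact (ENNReal.ofReal_le_ofReal_iff hy00.le).1 hyy0
  -- the mean of the cluster functions
  obtain ⟨Z, hZ⟩ : ∃ Z : ℝ≥0∞, Z = ENNReal.ofReal ζ := ⟨_, rfl⟩
  have hZ1 : 1 ≤ Z := by
    rw [hZ, ← ENNReal.ofReal_one]
    exact ENNReal.ofReal_le_ofReal hζ1.le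
  have hV : ∀ n : ℕ, ∫⁻ u, hf Z r F n u ∂(Q ph) ≤ ENNReal.ofReal (θ1 * Y) := by
    intro n
    induction n with
    | zero =>
      have : ∫⁻ u, hf Z r F 0 u ∂(Q ph) = 0 := by
        change ∫⁻ _, (0 : ℝ≥0∞) ∂(Q ph) = 0
        simp
      rw [this]
      exact zero_le
    | succ n ih =>
      refine (claimA h ph Z hT.mr hT.mF n).trans ?_
      rw [← hyd]
      have hs : y + ∫⁻ u, hf Z r F n u ∂(Q ph) ≤ ENNReal.ofReal ((1 + θ1) * Y) := by
        rw [add_mul, one_mul, ENNReal.ofReal_add hY0 (by positivity), ← hYy]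
        exact add_le_add le_rfl ih
      have hS1 : (1 + θ1) * Y ≤ 1 := (mul_le_mul_of_nonneg_left hYy0 (by positivity)).trans hy1
      have h1 := claimB ph h0 hq hq0 (by positivity : 0 ≤ (1 + θ1) * Y) hS1 hs
      refine (mul_le_mul' le_rfl h1).trans ?_
      rw [hZ, ← ENNReal.ofReal_mul hζ0.le]
      apply ENNReal.ofReal_le_ofReal
      have h2 : ζ * (1 + θ1) ^ 2 * Y ≤ 1 - ρ :=
        (mul_le_mul_of_nonneg_left hYy0 (by positivity)).trans hy2
      calc ζ * (q * ((1 + θ1) * Y) + ((1 + θ1) * Y) ^ 2) =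
          (ζ * q) * (1 + θ1) * Y + (ζ * (1 + θ1) ^ 2 * Y) * Y := by ring
        _ ≤ ρ * (1 + θ1) * Y + (1 - ρ) * Y := by
            rw [hζq]
            have := mul_le_mul_of_nonneg_right h2 hY0
            linarith
        _ = (ρ * θ1 + 1) * Y := by ring
        _ = θ1 * Y := by rw [hθρ]
  -- Markov and continuity
  have hset : {u : Tr Δ | 0 < m u ∧ (K : ℕ∞) ≤ size r u ∧ size r u ≠ ⊤} =
      ⋃ N : ℕ, {u : Tr Δ | 0 < m u ∧ (K : ℕ∞) ≤ size r u ∧ size r u ≤ (N : ℕ∞)} := by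
    ext u
    simp only [Set.mem_setOf_eq, Set.mem_iUnion]
    constructor
    · rintro ⟨h1, h2, h3⟩
      obtain ⟨N, hN⟩ := ENat.ne_top_iff_exists.1 h3
      exact ⟨N, h1, h2, hN.symm.le⟩
    · rintro ⟨N, h1, h2, h3⟩
      exact ⟨h1, h2, ne_top_of_le_ne_top (ENat.natCast_ne_top N) h3⟩
  have hmono : Monotone fun N : ℕ => {u : Tr Δ | 0 < m u ∧ (K : ℕ∞) ≤ size r u ∧
      size r u ≤ (N : ℕ∞)} := by
    intro N N' hNN u hu
    exact ⟨hu.1, hu.2.1, hu.2.2.trans (by exact_mod_cast hNN)⟩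
  have hfin : ENNReal.ofReal (ζ ^ K) * Q ph {u : Tr Δ | 0 < m u ∧ (K : ℕ∞) ≤ size r u ∧
      size r u ≠ ⊤} ≤ ENNReal.ofReal (θ1 * Y) := by
    rw [hset, hmono.measure_iUnion, ENNReal.mul_iSup]
    refine iSup_le fun N => ?_
    have h1 : {u : Tr Δ | 0 < m u ∧ (K : ℕ∞) ≤ size r u ∧ size r u ≤ (N : ℕ∞)} ⊆
        {u : Tr Δ | Z ^ K ≤ hf Z r F N u} := by
      rintro u ⟨h2, h3, h4⟩
      exact claimC hZ1 hii N u (hiii u h2) h4 K h3
    have h2 : ENNReal.ofReal (ζ ^ K) = Z ^ K := by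
      rw [hZ, ENNReal.ofReal_pow hζ0.le]
    rw [h2]
    exact (mul_le_mul' le_rfl (measure_mono h1)).trans
      ((mul_meas_ge_le_lintegral (meas_hf Z hT.mr hT.mF N) _).trans (hV N))
  refine hfin.trans ?_
  rw [ENNReal.ofReal_mul hθ0.le, ← hYy]
  refine (mul_le_mul' le_rfl hyx).trans ?_
  rw [ENNReal.ofReal_mul hθ0.le, mul_assoc]
  refine mul_le_mul' le_rfl (mul_le_mul' ?_ le_rfl)
  rw [← ENNReal.ofReal_natCast]
  exact ENNReal.ofReal_le_ofReal (by linarith)

end Pool.Agent.Y785.UG
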